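import Pool.Agent.Lib.MP_5f7e94_lc.All

/-!
# A regular `θ`-closed st-language which is not a generalized synchronization language
-/

set_option autoImplicit false

namespace Pool.Agent.Results.MP_5f7e94_lc.NotGenSync

open Pool.Agent.Lib.MP5f7e94

/-- Negative answer to the question of Salomaa and Yu (1997): over an alphabet of six actions there
is a regular `θ`-closed st-language which is not the language of any generalized synchronization
expression. -/
theorem result : ∃ L : Language (ST (Fin 6)), L.IsRegular ∧ (∀ u ∈ L, IsST u) ∧
    (∀ u v : List (ST (Fin 6)), ThetaStep u v → u ∈ L → v ∈ L) ∧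
    ∀ e : Expr (Fin 6), e.lang ≠ L :=
  main_theorem

end Pool.Agent.Results.MP_5f7e94_lc.NotGenSync
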